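import Pool.Agent.U251.LD.StmQ
import Pool.Agent.U765.LB.MB2

/-!
# Project LDQ, package MB2: moments on the torus (port of `Pool.Agent.U765.LB.MB2`, helper324)
-/

set_option autoImplicit false

namespace Pool.Agent.U324.LD.MB2

open Real MeasureTheory Filter Topology ProbabilityTheory Pool.Agent.U581.BM
open Pool.Agent.U603.LB Pool.Agent.U765.LB
open Pool.Agent.U581.LB hiding sg sg_pos sg_sq S_DIV S_UP S_MB Dom Bh Vh Bh_nonneg Vh_nonneg bq_nonneg vq_nonneg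
open Pool.Agent.U251.LD
open scoped BoundedContinuousFunction NNReal Nat

theorem t_MB2 (h1 : Pool.Agent.U581.LB.S_MB1) (h2 : S_DIV) (h3 : S_UP) : S_MB := by
  intro A hA
  obtain ⟨C1, hC1, -, hU⟩ := h3
  obtain ⟨B, hB⟩ : ∃ B, B = exp (8 * exp 4 * (A ^ 2 * C1 * π ^ 2)) := ⟨_, rfl⟩
  have hB0 : 0 < B := by rw [hB]; exact exp_pos _
  refine ⟨2 * B + 1, by positivity, fun m => ?_⟩
  rcases m with _ | k
  · refine ⟨1, one_pos, fun ρ _ _ c N _ => ?_⟩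
    simp only [mul_zero, pow_zero, Nat.factorial_zero, Nat.cast_one, mul_one, div_one]
    rw [integral_const]
    simp
    linarith
  obtain ⟨ε, hε⟩ : ∃ ε : ℝ, ε = 1 / (8 * ((k : ℝ) + 2)) := ⟨_, rfl⟩
  have hε0 : 0 < ε := by rw [hε]; positivity
  obtain ⟨C, hC, hD⟩ := h2 ε hε0
  obtain ⟨K1, hK1⟩ : ∃ K, K = 2 * A * C := ⟨_, rfl⟩
  obtain ⟨K2, hK2⟩ : ∃ K, K = 4 * A ^ 2 * C := ⟨_, rfl⟩
  have hK10 : 0 ≤ K1 := by rw [hK1]; positivity
  have hK20 : 0 ≤ K2 := by rw [hK2]; positivity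
  obtain ⟨K3, hK3⟩ : ∃ K, K = (K1 ^ 3) ^ (2 * k) * (K1 ^ 2 * K2) := ⟨_, rfl⟩
  have hK30 : 0 ≤ K3 := by rw [hK3]; positivity
  have hW : (0 : ℝ) < K3 * 16 ^ (k + 1) + 1 := by positivity
  refine ⟨min (exp (-1)) (1 / (K3 * 16 ^ (k + 1) + 1) ^ (8 * (k + 2))),
    lt_min (exp_pos _) (by positivity), ?_⟩
  intro ρ h0 hρ c N D
  have hρe := hρ.trans (min_le_left _ _)
  have hρW := hρ.trans (min_le_right _ _)
  have hlog : log ρ ≤ -1 := by
    rw [← Real.log_exp (-1)]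
    exact Real.log_le_log h0 hρe
  have hL : 1 ≤ log (1 / ρ) := by
    rw [one_div, Real.log_inv]; linarith
  have hρ1 : ρ < 1 := by
    have := Real.exp_lt_exp.2 (show (-1 : ℝ) < 0 by norm_num)
    rw [Real.exp_zero] at this
    linarith
  have hg := sg_pos h0 hρ1
  have hg2 := sg_sq h0 hρ1
  have hsq : 0 < √ρ := Real.sqrt_pos.2 h0
  have hpi : π ^ 2 ≤ 16 := by
    have h5 := Real.pi_le_four
    have h6 := Real.pi_pos
    nlinarith
  have hpi0 : (0 : ℝ) < π ^ 2 := by positivity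
  have hg4 : ρ / 4 ≤ sg ρ ^ 2 := by
    rw [hg2]
    have h5 : (1 : ℝ) ≤ log (1 / ρ) ^ 3 := one_le_pow₀ hL
    have h6 : (1 / 2 : ℝ) ≤ 8 / π ^ 2 := by
      rw [div_le_div_iff₀ two_pos hpi0]
      linarith
    have h7 : ρ ≤ ρ * log (1 / ρ) ^ 3 := by nlinarith
    calc ρ / 4 ≤ 1 / 2 * ρ := by linarith
      _ ≤ 8 / π ^ 2 * (ρ * log (1 / ρ) ^ 3) := mul_le_mul h6 h7 h0.le (by positivity)
  have hg3 : √ρ / 2 ≤ sg ρ := by
    apply le_of_sq_le_sq _ hg.le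
    rw [div_pow, Real.sq_sqrt h0.le]
    linarith
  obtain ⟨r, hr⟩ : ∃ r, r = ρ ^ (-ε) := ⟨_, rfl⟩
  have hr0 : 0 < r := by rw [hr]; positivity
  have hr1 : 1 ≤ r := by
    rw [hr]
    exact Real.one_le_rpow_of_pos_of_le_one_of_nonpos h0 hρ1.le (by linarith)
  have hrp : r ^ (8 * (k + 2)) * ρ = 1 := by
    rw [hr, ← Real.rpow_natCast, ← Real.rpow_mul h0.le]
    have : -ε * ((8 * (k + 2) : ℕ) : ℝ) = -1 := by
      rw [hε]; push_cast; field_simp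
    rw [this, Real.rpow_neg_one, inv_mul_cancel₀ h0.ne']
  have hrW : K3 * 16 ^ (k + 1) + 1 ≤ r := by
    have h4 : (K3 * 16 ^ (k + 1) + 1) ^ (8 * (k + 2)) ≤ r ^ (8 * (k + 2)) := by
      have h5 : 0 < (K3 * 16 ^ (k + 1) + 1) ^ (8 * (k + 2)) := by positivity
      have h6 : ρ * (K3 * 16 ^ (k + 1) + 1) ^ (8 * (k + 2)) ≤ 1 := by
        rwa [le_div_iff₀ h5] at hρW
      have h7 : r ^ (8 * (k + 2)) = 1 / ρ := by
        rw [eq_div_iff h0.ne']; exact hrp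
      rw [h7, le_div_iff₀ h0, mul_comm]
      exact h6
    exact le_of_pow_le_pow_left₀ (by omega) hr0.le h4
  -- the bounds of the blocks
  have hq12 : ∀ q : ℕ, 1 ≤ q → 0 < (q : ℝ) ^ (-(1 / 2) : ℝ) ∧ (q : ℝ) ^ (-(1 / 2) : ℝ) ≤ 1 := by
    intro q hq
    have hq' : (1 : ℝ) ≤ q := by exact_mod_cast hq
    exact ⟨by positivity, Real.rpow_le_one_of_one_le_of_nonpos hq' (by norm_num)⟩
  have hbq : ∀ q : ℕ, 1 ≤ q → bq c N q ≤ K1 * (q : ℝ) ^ (-(1 / 2) : ℝ) * r := by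
    intro q hq
    have h4 := D.bq hA hg h0.le N q
    have h5 := (hD N q ρ hq h0 hρ1.le).1
    have e1 : ρ ^ (1 / 2 - ε) = √ρ * r := by
      rw [hr, Real.sqrt_eq_rpow, ← Real.rpow_add h0]; congr 1
    rw [e1] at h5
    have h6 := (hq12 q hq).1
    calc bq c N q ≤ A / sg ρ * Bh N q ρ := h4
      _ ≤ A / (√ρ / 2) * (C * (q : ℝ) ^ (-(1 / 2) : ℝ) * (√ρ * r)) := by
          apply mul_le_mul _ h5 (Bh_nonneg N q h0.le) (by positivity)
          exact div_le_div_of_nonneg_left hA (by positivity) hg3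
      _ = K1 * (q : ℝ) ^ (-(1 / 2) : ℝ) * r := by rw [hK1]; field_simp
  have hvq : ∀ q : ℕ, 1 ≤ q → vq c N q ≤ K2 * (ρ * r) := by
    intro q hq
    have h4 := D.vq N q
    have h5 := (hD N q ρ hq h0 hρ1.le).2
    have e1 : ρ ^ (2 - ε) = ρ ^ 2 * r := by
      rw [hr, ← Real.rpow_natCast ρ 2, ← Real.rpow_add h0]; congr 1
    rw [e1] at h5
    have h6 := hq12 q hq
    have h7 : Vh N q ρ ≤ C * (ρ ^ 2 * r) := by
      refine h5.trans ?_
      have : C * (q : ℝ) ^ (-(1 / 2) : ℝ) ≤ C * 1 := mul_le_mul_of_nonneg_left h6.2 hC.le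
      rw [mul_one] at this
      exact mul_le_mul_of_nonneg_right this (by positivity)
    have h8 : (A / sg ρ) ^ 2 ≤ A ^ 2 / (ρ / 4) := by
      rw [div_pow]
      exact div_le_div_of_nonneg_left (sq_nonneg _) (by positivity) hg4
    calc vq c N q ≤ (A / sg ρ) ^ 2 * Vh N q ρ := h4
      _ ≤ A ^ 2 / (ρ / 4) * (C * (ρ ^ 2 * r)) :=
          mul_le_mul h8 h7 (Vh_nonneg N q ρ) (by positivity)
      _ = K2 * (ρ * r) := by rw [hK2]; field_simp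
  -- the two sets of blocks
  obtain ⟨Q, hQ⟩ : ∃ Q : Finset ℕ, Q = (Finset.Icc 1 N).filter (fun q => bq c N q ≤ 1) := ⟨_, rfl⟩
  obtain ⟨P, hP⟩ : ∃ P : Finset ℕ, P = (Finset.Icc 1 N).filter (fun q => ¬ bq c N q ≤ 1) := ⟨_, rfl⟩
  have hY : ∀ θ, Y c N θ = YQ c N Q θ + YQ c N P θ := by
    intro θ
    unfold Y YQ
    rw [hQ, hP, Finset.sum_filter_add_sum_filter_not]
  have hPmem : ∀ q ∈ P, 1 ≤ q ∧ (q : ℝ) ≤ (K1 * r) ^ 2 ∧ bq c N q ≤ K1 * r := by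
    intro q hq
    rw [hP, Finset.mem_filter, Finset.mem_Icc] at hq
    obtain ⟨⟨hq1, -⟩, hq2⟩ := hq
    push Not at hq2
    have h4 := hbq q hq1
    have h5 := hq12 q hq1
    have hq' : (0 : ℝ) < q := by exact_mod_cast hq1
    have h6 : (q : ℝ) ^ (-(1 / 2) : ℝ) * √q = 1 := by
      rw [Real.sqrt_eq_rpow, ← Real.rpow_add hq']; norm_num
    have h7 : 1 < K1 * r * (q : ℝ) ^ (-(1 / 2) : ℝ) := by
      calc (1 : ℝ) < bq c N q := hq2
        _ ≤ _ := h4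
        _ = _ := by ring
    have h8 : √(q : ℝ) ≤ K1 * r := by
      have h9 : 0 < √(q : ℝ) := Real.sqrt_pos.2 hq'
      calc √(q : ℝ) = 1 * √q := (one_mul _).symm
        _ ≤ K1 * r * (q : ℝ) ^ (-(1 / 2) : ℝ) * √q := mul_le_mul_of_nonneg_right h7.le h9.le
        _ = K1 * r * ((q : ℝ) ^ (-(1 / 2) : ℝ) * √q) := by ring
        _ = K1 * r := by rw [h6, mul_one]
    refine ⟨hq1, ?_, ?_⟩
    · rw [← Real.sq_sqrt hq'.le]
      exact pow_le_pow_left₀ (Real.sqrt_nonneg _) h8 2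
    · refine h4.trans ?_
      have : K1 * (q : ℝ) ^ (-(1 / 2) : ℝ) ≤ K1 * 1 := mul_le_mul_of_nonneg_left h5.2 hK10
      rw [mul_one] at this
      exact mul_le_mul_of_nonneg_right this hr0.le
  have hcard : (P.card : ℝ) ≤ (K1 * r) ^ 2 := by
    have h4 : P ⊆ Finset.Icc 1 ⌊(K1 * r) ^ 2⌋₊ := by
      intro q hq
      obtain ⟨h5, h6, -⟩ := hPmem q hq
      rw [Finset.mem_Icc]
      exact ⟨h5, Nat.le_floor h6⟩
    have h5 := Finset.card_le_card h4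
    rw [Nat.card_Icc, Nat.add_sub_cancel] at h5
    calc (P.card : ℝ) ≤ (⌊(K1 * r) ^ 2⌋₊ : ℝ) := by exact_mod_cast h5
      _ ≤ _ := Nat.floor_le (sq_nonneg _)
  have hSb : ∑ q ∈ P, bq c N q ≤ (K1 * r) ^ 3 := by
    calc ∑ q ∈ P, bq c N q ≤ ∑ _q ∈ P, K1 * r := Finset.sum_le_sum fun q hq => (hPmem q hq).2.2
      _ = P.card * (K1 * r) := by rw [Finset.sum_const, nsmul_eq_mul]
      _ ≤ (K1 * r) ^ 2 * (K1 * r) := mul_le_mul_of_nonneg_right hcard (by positivity)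
      _ = _ := by ring
  have hSv : ∑ q ∈ P, vq c N q ≤ (K1 * r) ^ 2 * (K2 * (ρ * r)) := by
    calc ∑ q ∈ P, vq c N q ≤ ∑ _q ∈ P, K2 * (ρ * r) :=
          Finset.sum_le_sum fun q hq => hvq q (hPmem q hq).1
      _ = P.card * (K2 * (ρ * r)) := by rw [Finset.sum_const, nsmul_eq_mul]
      _ ≤ _ := mul_le_mul_of_nonneg_right hcard (by positivity)
  -- the large blocks
  have hPint : ∫ θ, YQ c N P θ ^ (2 * (k + 1)) ∂Th ≤ 1 / 16 ^ (k + 1) := by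
    have h4 : ∀ θ, YQ c N P θ ^ (2 * (k + 1)) ≤ ((K1 * r) ^ 3) ^ (2 * k) * YQ c N P θ ^ 2 := by
      intro θ
      have h5 := (abs_YQ c N P θ).trans hSb
      have h6 : YQ c N P θ ^ (2 * k) ≤ ((K1 * r) ^ 3) ^ (2 * k) := by
        calc YQ c N P θ ^ (2 * k) = |YQ c N P θ| ^ (2 * k) := by
              rw [pow_mul, pow_mul, sq_abs]
          _ ≤ _ := pow_le_pow_left₀ (abs_nonneg _) h5 _
      calc YQ c N P θ ^ (2 * (k + 1)) = YQ c N P θ ^ (2 * k) * YQ c N P θ ^ 2 := by ring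
        _ ≤ _ := mul_le_mul_of_nonneg_right h6 (sq_nonneg _)
    calc ∫ θ, YQ c N P θ ^ (2 * (k + 1)) ∂Th
        ≤ ∫ θ, ((K1 * r) ^ 3) ^ (2 * k) * YQ c N P θ ^ 2 ∂Th :=
          integral_mono (int_YQ_pow c N P _) ((int_YQ_pow c N P 2).const_mul _) h4
      _ = ((K1 * r) ^ 3) ^ (2 * k) * ∑ q ∈ P, vq c N q := by
          rw [integral_const_mul, sq_YQ]
      _ ≤ ((K1 * r) ^ 3) ^ (2 * k) * ((K1 * r) ^ 2 * (K2 * (ρ * r))) :=
          mul_le_mul_of_nonneg_left hSv (by positivity)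
      _ = K3 * (r ^ (6 * k + 3) * ρ) := by
          rw [hK3]; ring
      _ ≤ K3 * (1 / r) := by
          apply mul_le_mul_of_nonneg_left _ hK30
          rw [le_div_iff₀ hr0]
          calc r ^ (6 * k + 3) * ρ * r = r ^ (6 * k + 4) * ρ := by ring
            _ ≤ r ^ (8 * (k + 2)) * ρ :=
                mul_le_mul_of_nonneg_right (pow_le_pow_right₀ hr1 (by omega)) h0.le
            _ = 1 := hrp
      _ ≤ 1 / 16 ^ (k + 1) := by
          rw [mul_one_div, div_le_div_iff₀ hr0 (by positivity), one_mul]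
          linarith
  -- the small blocks
  have hQsub : Q ⊆ Finset.Icc 1 N := by rw [hQ]; exact Finset.filter_subset _ _
  have hQV : ∑ q ∈ Q, vq c N q ≤ A ^ 2 * C1 * π ^ 2 := by
    have hl0 : 0 < log (1 / ρ) := by linarith
    have h7 : (1 + log (1 / ρ)) ^ 3 ≤ (2 * log (1 / ρ)) ^ 3 :=
      pow_le_pow_left₀ (by linarith) (by linarith) 3
    have h8 : C1 * (ρ * (1 + log (1 / ρ)) ^ 3) ≤ C1 * (ρ * (2 * log (1 / ρ)) ^ 3) :=
      mul_le_mul_of_nonneg_left (mul_le_mul_of_nonneg_left h7 h0.le) hC1.le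
    calc ∑ q ∈ Q, vq c N q ≤ ∑ q ∈ Finset.Icc 1 N, vq c N q :=
          Finset.sum_le_sum_of_subset_of_nonneg hQsub fun q _ _ => vq_nonneg c N q
      _ = V c N := vq_sum c N
      _ ≤ (A / sg ρ) ^ 2 * ∑ n ∈ Finset.Icc 1 N, cd n ^ 2 * min 2 (2 * π ^ 2 * (n * ρ ^ 2)) := D.V N
      _ ≤ (A / sg ρ) ^ 2 * (C1 * (ρ * (1 + log (1 / ρ)) ^ 3)) :=
          mul_le_mul_of_nonneg_left (hU N ρ h0 hρ1.le) (sq_nonneg _)
      _ ≤ (A / sg ρ) ^ 2 * (C1 * (ρ * (2 * log (1 / ρ)) ^ 3)) :=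
          mul_le_mul_of_nonneg_left h8 (sq_nonneg _)
      _ = A ^ 2 * C1 * π ^ 2 := by
          have hl1 : log (1 / ρ) ≠ 0 := hl0.ne'
          rw [div_pow, hg2]
          field_simp
          ring
  have hQint : ∫ θ, YQ c N Q θ ^ (2 * (k + 1)) ∂Th ≤
      2 * ((2 * (k + 1))! : ℝ) / 16 ^ (k + 1) * B := by
    have h4 := h1 c N (k + 1) Q hQsub (fun q hq => by
      rw [hQ, Finset.mem_filter] at hq
      exact hq.2)
    refine h4.trans ?_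
    rw [hB]
    gcongr
  have hf : (1 : ℝ) ≤ ((2 * (k + 1))! : ℝ) := by exact_mod_cast Nat.one_le_iff_ne_zero.2 (Nat.factorial_ne_zero _)
  have e16 : (16 : ℝ) ^ (k + 1) = 4 ^ (k + 1) * 4 ^ (k + 1) := by
    rw [← mul_pow]; norm_num
  calc ∫ θ, Y c N θ ^ (2 * (k + 1)) ∂Th
      ≤ ∫ θ, (4 ^ (k + 1) * YQ c N Q θ ^ (2 * (k + 1)) + 4 ^ (k + 1) * YQ c N P θ ^ (2 * (k + 1))) ∂Th := by
        refine integral_mono ?_ (((int_YQ_pow c N Q _).const_mul _).add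
          ((int_YQ_pow c N P _).const_mul _)) fun θ => ?_
        · have e : (fun θ => Y c N θ ^ (2 * (k + 1))) =
              fun θ => YQ c N (Finset.Icc 1 N) θ ^ (2 * (k + 1)) := rfl
          rw [e]
          exact int_YQ_pow c N _ _
        · simp only
          rw [hY]
          exact pow_add_le _ _ _
    _ = 4 ^ (k + 1) * ∫ θ, YQ c N Q θ ^ (2 * (k + 1)) ∂Th +
        4 ^ (k + 1) * ∫ θ, YQ c N P θ ^ (2 * (k + 1)) ∂Th := by
        rw [integral_add ((int_YQ_pow c N Q _).const_mul _) ((int_YQ_pow c N P _).const_mul _),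
          integral_const_mul, integral_const_mul]
    _ ≤ 4 ^ (k + 1) * (2 * ((2 * (k + 1))! : ℝ) / 16 ^ (k + 1) * B) +
        4 ^ (k + 1) * (1 / 16 ^ (k + 1)) := by gcongr
    _ = (2 * B) * ((2 * (k + 1))! : ℝ) / 4 ^ (k + 1) + 1 / 4 ^ (k + 1) := by
        rw [e16]; field_simp
    _ ≤ (2 * B) * ((2 * (k + 1))! : ℝ) / 4 ^ (k + 1) + ((2 * (k + 1))! : ℝ) / 4 ^ (k + 1) := by gcongr
    _ = (2 * B + 1) * ((2 * (k + 1))! : ℝ) / 4 ^ (k + 1) := by ring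

end Pool.Agent.U324.LD.MB2
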